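import Pool.Agent.LibScat.Main
import Pool.Agent.LibScat.Exist

/-!
The Elgin-Reading-Stella conjecture on the integrality of the coefficients of rank two cluster
scattering diagrams.
-/

namespace Pool.Agent.Results.MP_23fda5_co.Integrality

open Pool.Agent.LibScat

/-- For every field `K` of characteristic zero there is a family `F` such that, for all positive
`b` and `c`, `F b c` is the consistent rank two cluster scattering diagram with parameters `b` and
`c` (its wall-functions are uniquely determined). For all positive `i`, `j` there is a unique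
polynomial `T` with rational coefficients expressing the coefficient `τ(i,j)` in terms of `b`,
`c` and `g = gcd(ib, jc) / gcd(i, j)`, and `max(i,j)! T` has integer coefficients. -/
theorem result (K : Type*) [Field K] [CharZero K] :
    ∃ F : ℕ → ℕ → (Fin 2 →₀ ℕ) → MvPowerSeries (Fin 2) K,
      (∀ b c : ℕ, 0 < b → 0 < c → IsDiagram b c (F b c) ∧
        ∀ f : (Fin 2 →₀ ℕ) → MvPowerSeries (Fin 2) K, IsDiagram b c f →
          ∀ v, Prim v → f v = F b c v) ∧
      ∀ i j : ℕ, 0 < i → 0 < j →
        ∃ T : MvPolynomial (Fin 3) ℚ, Expresses F i j T ∧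
          (∀ T' : MvPolynomial (Fin 3) ℚ, Expresses F i j T' → T' = T) ∧
          ∃ P : MvPolynomial (Fin 3) ℤ,
            MvPolynomial.C ((Nat.factorial (max i j) : ℕ) : ℚ) * T =
              MvPolynomial.map (Int.castRingHom ℚ) P := by
  classical
  have hex : ∀ b c : ℕ, ∃ f : (Fin 2 →₀ ℕ) → MvPowerSeries (Fin 2) K,
      0 < b → 0 < c → IsDiagram b c f := by
    intro b c
    by_cases h : 0 < b ∧ 0 < c
    · obtain ⟨f, hf⟩ := exists_diagram K h.1 h.2
      exact ⟨f, fun _ _ => hf⟩
    · exact ⟨fun _ => 1, fun hb hc => absurd ⟨hb, hc⟩ h⟩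
  choose F hF using hex
  refine ⟨F, fun b c hb hc => ⟨hF b c hb hc, fun f hf v hv =>
    unique_diagram hb hc hf (hF b c hb hc) v hv⟩, ?_⟩
  intro i j hi hj
  obtain ⟨⟨T, hT, hu⟩, hint⟩ := main_int hF hi hj
  exact ⟨T, hT, hu, hint T hT⟩

end Pool.Agent.Results.MP_23fda5_co.Integrality
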